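import Mathlib
import Pool.Agent.H.MP_eab1c6_co.Cnt

set_option autoImplicit false

namespace Pool.Agent.Results.MP_eab1c6_co.Yes

open Finset

/-- `A` contains `M`: a submatrix of `A` has a 1 wherever `M` has a 1. -/
def Contains {n m k l : ℕ} (A : Fin n → Fin m → Bool) (M : Fin k → Fin l → Bool) : Prop :=
  ∃ (r : Fin k ↪o Fin n) (c : Fin l ↪o Fin m), ∀ i j, M i j = true → A (r i) (c j) = true

def ones {n m : ℕ} (A : Fin n → Fin m → Bool) : ℕ :=
  (univ.filter fun p : Fin n × Fin m => A p.1 p.2 = true).card

/-- `A` with the entry `(i, j)` changed to 1. -/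
def setOne {n m : ℕ} (A : Fin n → Fin m → Bool) (i : Fin n) (j : Fin m) : Fin n → Fin m → Bool :=
  fun x y => if x = i ∧ y = j then true else A x y

noncomputable def ex (n m : ℕ) {k l : ℕ} (M : Fin k → Fin l → Bool) : ℕ :=
  sSup {t | ∃ A : Fin n → Fin m → Bool, ¬ Contains A M ∧ ones A = t}

noncomputable def sat (n m : ℕ) {k l : ℕ} (M : Fin k → Fin l → Bool) : ℕ :=
  sInf {t | ∃ A : Fin n → Fin m → Bool, ¬ Contains A M ∧
    (∀ i j, A i j = false → Contains (setOne A i j) M) ∧ ones A = t}

/-- `J s` (indices from 0): ones at `(i, i+1)` and at `(s-1, 0)`. -/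
def J (s : ℕ) : Fin s → Fin s → Bool :=
  fun i j => decide (j.val = i.val + 1 ∨ (i.val + 1 = s ∧ j.val = 0))

/-- The order of `∨_s` on `Option (Fin s)`: `none` is `a`, `some i` is `b_i`. -/
def vle {s : ℕ} (p q : Option (Fin s)) : Prop := p = none ∨ p = q

def StrongCopy {n : ℕ} {P : Type} (le : P → P → Prop) (F : Finset (Fin n × Fin n)) : Prop :=
  ∃ f : P → Fin n × Fin n, Function.Injective f ∧ (∀ p, f p ∈ F) ∧ ∀ p q, le p q ↔ f p ≤ f q

noncomputable def laStar (n : ℕ) {P : Type} (le : P → P → Prop) : ℕ :=
  sSup {t | ∃ F : Finset (Fin n × Fin n), ¬ StrongCopy le F ∧ F.card = t}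

noncomputable def satStar (n : ℕ) {P : Type} (le : P → P → Prop) : ℕ :=
  sInf {t | ∃ F : Finset (Fin n × Fin n), ¬ StrongCopy le F ∧
    (∀ x, x ∉ F → StrongCopy le (insert x F)) ∧ F.card = t}

open Pool.Agent.H.MP_eab1c6_co.Geo Pool.Agent.H.MP_eab1c6_co.Cnt

theorem gen {α : Type} [Fintype α] (fr st : α → Prop) (sz : α → ℕ) (v : ℕ) (h0 : ∃ a, fr a)
    (h1 : ∀ a, fr a → ¬ st a → ∃ b, fr b ∧ sz a < sz b) (h2 : ∀ a, fr a → st a → sz a = v) :
    sSup {t | ∃ a, fr a ∧ sz a = t} = v ∧ sInf {t | ∃ a, fr a ∧ st a ∧ sz a = t} = v := by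
  classical
  obtain ⟨a, ha, hmax⟩ := exists_max_image (univ.filter fr) sz (by
    obtain ⟨a, ha⟩ := h0
    exact ⟨a, by simpa using ha⟩)
  simp only [mem_filter, mem_univ, true_and] at ha hmax
  have hs : st a := by
    by_contra h
    obtain ⟨b, hb, h3⟩ := h1 a ha h
    have := hmax b hb
    omega
  constructor
  · apply IsGreatest.csSup_eq
    refine ⟨⟨a, ha, h2 a ha hs⟩, ?_⟩
    rintro t ⟨b, hb, rfl⟩
    rw [← h2 a ha hs]
    exact hmax b hb
  · apply IsLeast.csInf_eq
    refine ⟨⟨a, ha, hs, h2 a ha hs⟩, ?_⟩
    rintro t ⟨b, hb, hb2, rfl⟩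
    exact (h2 b hb hb2).ge

def phi {n : ℕ} (p : Fin n × Fin n) : ℕ × ℕ := (p.1.val, n - 1 - p.2.val)

def psi {n : ℕ} (A : Fin n → Fin n → Bool) : Finset (ℕ × ℕ) :=
  (univ.filter fun p : Fin n × Fin n => A p.1 p.2 = true).image phi

theorem phi_inj {n : ℕ} : Function.Injective (phi (n := n)) := by
  rintro ⟨a, b⟩ ⟨c, d⟩ h
  simp only [phi, Prod.mk.injEq] at h
  exact Prod.ext (Fin.ext h.1) (Fin.ext (by simp only; omega))

theorem psi_box {n : ℕ} (A : Fin n → Fin n → Bool) : psi A ⊆ box n := by
  intro c hc
  obtain ⟨p, -, rfl⟩ := mem_image.1 hc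
  have := p.2.isLt
  rw [mem_box]
  exact ⟨p.1.isLt, by simp only [phi]; omega⟩

theorem mem_psi {n : ℕ} {A : Fin n → Fin n → Bool} {c : ℕ × ℕ} (hc : c ∈ psi A) (i j : Fin n)
    (h1 : i.val = c.1) (h2 : j.val = n - 1 - c.2) : A i j = true := by
  obtain ⟨p, hp, rfl⟩ := mem_image.1 hc
  have := p.2.isLt
  simp only [phi] at h1 h2
  rw [show i = p.1 from Fin.ext h1, show j = p.2 from Fin.ext (by omega)]
  exact (mem_filter.1 hp).2

theorem psi_set {n : ℕ} (A : Fin n → Fin n → Bool) (i j : Fin n) :
    psi (setOne A i j) = insert (phi (i, j)) (psi A) := by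
  unfold psi
  rw [← image_insert]
  congr 1
  ext ⟨x, y⟩
  simp only [setOne, mem_filter, mem_univ, true_and, mem_insert, Prod.mk.injEq]
  by_cases h : x = i ∧ y = j <;> simp [h]

theorem contains_iff {n k : ℕ} (A : Fin n → Fin n → Bool) :
    Contains A (J (k + 2)) ↔ ¬ FreeJ k (psi A) := by
  constructor
  · rintro ⟨r, c, h⟩ hf
    have hm : ∀ i j, J (k + 2) i j = true → phi (r i, c j) ∈ psi A := fun i j hij =>
      mem_image_of_mem _ (mem_filter.2 ⟨mem_univ _, h i j hij⟩)
    have hr : ∀ i j, i < j → (r i).val < (r j).val := fun i j hij => r.strictMono hij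
    have hc : ∀ i j, i < j → (c i).val < (c j).val := fun i j hij => c.strictMono hij
    have := hf _ (hm (Fin.last _) 0 (by simp [J]))
      (univ.image fun t : Fin (k + 1) => phi (r t.castSucc, c t.succ)) (by
        intro b hb
        obtain ⟨t, -, rfl⟩ := mem_image.1 hb
        exact hm _ _ (by simp [J])) (by
        intro b hb d hd hne
        obtain ⟨t, -, rfl⟩ := mem_image.1 hb
        obtain ⟨u, -, rfl⟩ := mem_image.1 hd
        have h1 := (c t.succ).isLt
        have h2 := (c u.succ).isLt
        simp only [phi]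
        rcases lt_trichotomy t u with h3 | rfl | h3
        · have := hr t.castSucc u.castSucc (by simpa using h3)
          have := hc t.succ u.succ (by simpa using h3)
          omega
        · exact absurd rfl hne
        · have := hr u.castSucc t.castSucc (by simpa using h3)
          have := hc u.succ t.succ (by simpa using h3)
          omega) (by
        intro b hb
        obtain ⟨t, -, rfl⟩ := mem_image.1 hb
        have h1 := (c t.succ).isLt
        have := hr t.castSucc (Fin.last _) (Fin.castSucc_lt_last t)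
        have := hc 0 t.succ (Fin.succ_pos t)
        simp only [phi]
        omega)
    rw [card_image_of_injective _ (fun t u e => by
      have := congrArg Prod.fst (phi_inj e)
      simpa using this), card_univ, Fintype.card_fin] at this
    omega
  · intro h
    unfold FreeJ at h
    push Not at h
    obtain ⟨a, ha, B, hB, hA, hle, hk⟩ := h
    obtain ⟨f, hf, hs⟩ := sorted hA (L := k + 1) hk
    have hab := mem_box.1 (psi_box A ha)
    have hb : ∀ t < k + 1, (f t).1 < a.1 ∧ (f t).2 < a.2 := fun t ht => hle _ (hf t ht)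
    let g : Fin (k + 2) → Fin n := fun i => ⟨if i.val < k + 1 then (f i.val).1 else a.1, by
      split_ifs with h
      · have := hb _ h; omega
      · exact hab.1⟩
    let c : Fin (k + 2) → Fin n := fun j => ⟨n - 1 - if j.val = 0 then a.2 else (f (j.val - 1)).2, by
      omega⟩
    have hg : StrictMono g := by
      intro i j hij
      have h1 : i.val < j.val := hij
      have := j.isLt
      simp only [g, Fin.mk_lt_mk]
      rw [if_pos (by omega)]
      split_ifs with h2
      · exact (hs _ _ h1 h2).1
      · exact (hb _ (by omega)).1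
    have hc : StrictMono c := by
      intro i j hij
      have h1 : i.val < j.val := hij
      have := j.isLt
      have h3 := (hb (j.val - 1) (by omega)).2
      simp only [c, Fin.mk_lt_mk]
      rw [if_neg (show ¬ j.val = 0 by omega)]
      split_ifs with h2
      · omega
      · have := (hs (i.val - 1) (j.val - 1) (by omega) (by omega)).2
        have := (hb (i.val - 1) (by omega)).2
        omega
    refine ⟨OrderEmbedding.ofStrictMono g hg, OrderEmbedding.ofStrictMono c hc, ?_⟩
    intro i j hij
    simp only [J, decide_eq_true_eq] at hij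
    have := j.isLt
    simp only [OrderEmbedding.coe_ofStrictMono]
    rcases hij with h1 | h1
    · refine mem_psi (hB (hf i.val (by omega))) _ _ ?_ ?_
      · simp only [g]
        rw [if_pos (by omega)]
      · simp only [c]
        rw [if_neg (by omega), h1, Nat.add_sub_cancel]
    · refine mem_psi ha _ _ ?_ ?_
      · simp only [g]
        rw [if_neg (by omega)]
      · simp only [c]
        rw [if_pos h1.2]

theorem matJ (m k : ℕ) : ex (m + 1) (m + 1) (J (k + 2)) = (m + 1) * (m + 1) - (m - k) * (m - k) ∧
    sat (m + 1) (m + 1) (J (k + 2)) = (m + 1) * (m + 1) - (m - k) * (m - k) := by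
  have ho : ∀ A : Fin (m + 1) → Fin (m + 1) → Bool, ones A = (psi A).card := fun A =>
    (card_image_of_injective _ phi_inj).symm
  refine gen (fun A => ¬ Contains A (J (k + 2)))
    (fun A => ∀ i j, A i j = false → Contains (setOne A i j) (J (k + 2))) ones _ ?_ ?_ ?_
  · refine ⟨fun _ _ => false, ?_⟩
    rintro ⟨r, c, h⟩
    simpa using h 0 1 (by simp [J])
  · intro A _ h
    push Not at h
    obtain ⟨i, j, h1, h2⟩ := h
    refine ⟨_, h2, ?_⟩
    rw [ho, ho, psi_set, card_insert_of_notMem]
    · omega
    · intro e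
      have h3 := j.isLt
      have := mem_psi e i j rfl (by simp only [phi]; omega)
      rw [h1] at this
      exact absurd this (by simp)
  · intro A h1 h2
    rw [contains_iff, not_not] at h1
    have := satJ (psi_box A) h1 (by
      intro z hz hzA
      rw [mem_box] at hz
      have e : z = phi ((⟨z.1, hz.1⟩, ⟨m - z.2, by omega⟩) : Fin (m + 1) × Fin (m + 1)) :=
        Prod.ext rfl (by simp only [phi]; omega)
      rw [e, ← psi_set, ← contains_iff]
      apply h2
      by_contra h3
      apply hzA
      rw [e]
      exact mem_image_of_mem _ (mem_filter.2 ⟨mem_univ _, by simpa using h3⟩))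
    rw [ho]
    omega

def rho {n : ℕ} (p : Fin n × Fin n) : ℕ × ℕ := (n - 1 - p.1.val, n - 1 - p.2.val)

def th (m : ℕ) (c : ℕ × ℕ) : Fin (m + 1) × Fin (m + 1) := (⟨m - c.1, by omega⟩, ⟨m - c.2, by omega⟩)

theorem th_rho {m : ℕ} (p : Fin (m + 1) × Fin (m + 1)) : th m (rho p) = p := by
  have := p.1.isLt
  have := p.2.isLt
  exact Prod.ext (Fin.ext (by simp only [th, rho]; omega)) (Fin.ext (by simp only [th, rho]; omega))

theorem rho_inj {m : ℕ} : Function.Injective (rho (n := m + 1)) := fun a b h => by
  rw [← th_rho a, h, th_rho]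

theorem rho_box {m : ℕ} (F : Finset (Fin (m + 1) × Fin (m + 1))) : F.image rho ⊆ box (m + 1) := by
  intro c hc
  obtain ⟨p, -, rfl⟩ := mem_image.1 hc
  rw [mem_box]
  simp only [rho]
  omega

theorem copy_iff {m k : ℕ} (F : Finset (Fin (m + 1) × Fin (m + 1))) :
    StrongCopy (vle (s := k + 2)) F ↔ ¬ Free (k + 1) (F.image rho) (F.image rho) := by
  constructor
  · rintro ⟨f, hf, hF, h⟩ hfr
    have := hfr _ (mem_image_of_mem _ (hF none))
      (univ.image fun t : Fin (k + 2) => rho (f (some t))) (by
        intro b hb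
        obtain ⟨t, -, rfl⟩ := mem_image.1 hb
        exact mem_image_of_mem _ (hF _)) (by
        intro b hb d hd hne
        obtain ⟨t, -, rfl⟩ := mem_image.1 hb
        obtain ⟨u, -, rfl⟩ := mem_image.1 hd
        have htu : t ≠ u := fun e => hne (by rw [e])
        have h1 := (h (some t) (some u)).not.1 (by simp [vle, htu])
        have h2 := (h (some u) (some t)).not.1 (by simp [vle, htu.symm])
        simp only [Prod.le_def, Fin.le_def] at h1 h2
        have := (f (some t)).1.isLt
        have := (f (some t)).2.isLt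
        have := (f (some u)).1.isLt
        have := (f (some u)).2.isLt
        simp only [rho]
        omega) (by
        intro b hb
        obtain ⟨t, -, rfl⟩ := mem_image.1 hb
        have h1 := (h none (some t)).1 (Or.inl rfl)
        simp only [Prod.le_def, Fin.le_def] at h1
        simp only [rho]
        omega)
    rw [card_image_of_injective _ (fun t u e => by simpa using hf (rho_inj e)), card_univ,
      Fintype.card_fin] at this
    omega
  · intro h
    unfold Free at h
    push Not at h
    obtain ⟨a, ha, B, hB, hA, hle, hk⟩ := h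
    obtain ⟨f, hf, hs⟩ := sorted hA (L := k + 2) hk
    have hab := mem_box.1 (rho_box F ha)
    have hb : ∀ t < k + 2, (f t).1 ≤ a.1 ∧ (f t).2 ≤ a.2 := fun t ht => hle _ (hf t ht)
    have hth : ∀ c ∈ F.image rho, th m c ∈ F := by
      intro c hc
      obtain ⟨p, hp, rfl⟩ := mem_image.1 hc
      rwa [th_rho]
    have key : ∀ p q : Option (Fin (k + 2)), vle p q ↔
        th m (p.elim a fun t => f t.val) ≤ th m (q.elim a fun t => f t.val) := by
      intro p q
      simp only [vle, th, Prod.le_def, Fin.le_def]
      rcases p with _ | t <;> rcases q with _ | u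
      · simp
      · have := hb u.val u.isLt
        simp only [true_or, Option.elim, true_iff]
        omega
      · have h0 := hb t.val t.isLt
        have := t.isLt
        simp only [Option.elim, reduceCtorEq, or_self, false_iff]
        by_cases e : t.val = 0
        · have := hs t.val 1 (by omega) (by omega)
          have := hb 1 (by omega)
          omega
        · have := hs 0 t.val (by omega) (by omega)
          have := hb 0 (by omega)
          omega
      · have := hb t.val t.isLt
        have := hb u.val u.isLt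
        simp only [Option.elim, reduceCtorEq, false_or, Option.some.injEq]
        rcases lt_trichotomy t u with h3 | rfl | h3
        · have := hs t.val u.val h3 u.isLt
          simp only [h3.ne, false_iff]
          omega
        · simp
        · have := hs u.val t.val h3 t.isLt
          simp only [h3.ne', false_iff]
          omega
    refine ⟨fun p => th m (p.elim a fun t => f t.val), ?_, ?_, key⟩
    · intro p q e
      have h1 := (key p q).2 (le_of_eq e)
      have h2 := (key q p).2 (le_of_eq e.symm)
      rcases h1 with rfl | h1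
      · rcases h2 with rfl | h2
        · rfl
        · exact h2.symm
      · exact h1
    · rintro (_ | t)
      · exact hth _ ha
      · exact hth _ (hB (hf _ t.isLt))

theorem posV (m k : ℕ) :
    laStar (m + 1) (vle (s := k + 2)) = (m + 1) * (m + 1) - (m - k) * (m - k) ∧
    satStar (m + 1) (vle (s := k + 2)) = (m + 1) * (m + 1) - (m - k) * (m - k) := by
  refine gen (fun F => ¬ StrongCopy (vle (s := k + 2)) F)
    (fun F => ∀ x, x ∉ F → StrongCopy (vle (s := k + 2)) (insert x F)) card _ ?_ ?_ ?_
  · refine ⟨∅, ?_⟩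
    rintro ⟨f, -, h, -⟩
    simpa using h none
  · intro F _ h
    push Not at h
    obtain ⟨x, h1, h2⟩ := h
    exact ⟨_, h2, by rw [card_insert_of_notMem h1]; omega⟩
  · intro F h1 h2
    rw [copy_iff, not_not] at h1
    have := satV (rho_box F) h1 (by
      intro z hz hzF
      rw [mem_box] at hz
      have e : z = rho (th m z) :=
        Prod.ext (by simp only [th, rho]; omega) (by simp only [th, rho]; omega)
      rw [e, ← image_insert, ← copy_iff]
      apply h2
      intro h3
      apply hzF
      rw [e]
      exact mem_image_of_mem _ h3)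
    rw [card_image_of_injective _ rho_inj, show m + 1 - (k + 1) = m - k by omega] at this
    omega

theorem result (s n : ℕ) (hs : 3 ≤ s) (hn : 1 ≤ n) :
    sat n n (J s) = ex n n (J s) ∧ ex n n (J s) = satStar n (vle (s := s)) ∧
      satStar n (vle (s := s)) = laStar n (vle (s := s)) ∧
      laStar n (vle (s := s)) = n ^ 2 - (n + 1 - s) ^ 2 := by
  obtain ⟨k, rfl⟩ : ∃ k, s = k + 2 := ⟨s - 2, by omega⟩
  obtain ⟨m, rfl⟩ : ∃ m, n = m + 1 := ⟨n - 1, by omega⟩
  obtain ⟨h1, h2⟩ := matJ m k
  obtain ⟨h3, h4⟩ := posV m k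
  rw [h1, h2, h3, h4, show m + 1 + 1 - (k + 2) = m - k by omega, sq, sq]
  exact ⟨rfl, rfl, rfl, rfl⟩

end Pool.Agent.Results.MP_eab1c6_co.Yes
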